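import Pool.Agent.Results.MP_3166b2_lc.NoBorelCriterion
import Pool.Agent.Y953.CA.DST

/-!
# Topological conjugacy of minimal distal homeomorphisms is hard for analytic sets

The definitions (`Q`, `Sys`, `X`, `Distal`, `Conj`) are those of the starting file
`NoBorelCriterion`: `X` is the space of the codes of minimal homeomorphisms of nonempty compact
subsets of the Hilbert cube.

Every analytic subset of the Baire space is the preimage of topological conjugacy under a
continuous map whose values are pairs of minimal distal codes; every analytic subset of any Polish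
space is such a preimage under a Borel map. So on the minimal distal codes topological conjugacy
agrees with no Borel set, and even with no coanalytic set, and it is not Borel reducible to any
coanalytic (in particular to any Borel) relation on a Polish space.
-/

set_option autoImplicit false

namespace Pool.Agent.Results.MP_3166b2_lc.AnalyticHard

open Filter Topology Set MeasureTheory TopologicalSpace
open Pool.Agent.Results.MP_3166b2_lc.NoBorelCriterion
open Pool.Agent.Y953.CA

/-- Codes are determined by their graphs. -/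
theorem graph_inj : Function.Injective Sys.graph := by
  have key : ∀ (S S' : Sys), S.graph = S'.graph → S.K ⊆ S'.K := by
    intro S S' h x hx
    have h1 : ((x : Q), (S.T ⟨x, hx⟩ : Q)) ∈ (S.graph : Set (Q × Q)) := ⟨⟨x, hx⟩, rfl⟩
    rw [h] at h1
    obtain ⟨y, hy⟩ := h1
    have h2 : (y : Q) = x := congrArg Prod.fst hy
    rw [← h2]
    exact y.2
  intro S S' h
  have hK : S.K = S'.K := (key S S' h).antisymm (key S' S h.symm)
  obtain ⟨K, hc, hn, T⟩ := S
  obtain ⟨K', hc', hn', T'⟩ := S'
  have hK' : K = K' := hK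
  subst hK'
  have hT : T = T' := by
    ext x
    have h1 : ((x : Q), (T x : Q)) ∈ ((Sys.graph ⟨K, hc, hn, T⟩ : NonemptyCompacts (Q × Q)) :
        Set (Q × Q)) := ⟨x, rfl⟩
    rw [h] at h1
    obtain ⟨y, hy⟩ := h1
    have h2 : (y : Q) = x := congrArg Prod.fst hy
    have h3 : (T' y : Q) = T x := congrArg Prod.snd hy
    have h4 : y = x := Subtype.ext h2
    rw [← h3, h4]
  rw [hT]

theorem t2_sys : T2Space Sys := T2Space.of_injective_continuous graph_inj continuous_induced_dom

/-- Preimages of analytic sets under Borel maps are analytic. -/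
theorem analytic_preimage {Z Y : Type} [t : TopologicalSpace Z] [PolishSpace Z]
    [MeasurableSpace Z] [BorelSpace Z] [TopologicalSpace Y] [PolishSpace Y] [MeasurableSpace Y]
    [BorelSpace Y] {f : Z → Y} (hf : Measurable f) {s : Set Y} (hs : AnalyticSet s) :
    AnalyticSet (f ⁻¹' s) := by
  obtain ⟨t', hle, hc, hp⟩ := hf.exists_continuous
  have h1 : @AnalyticSet Z t' (f ⁻¹' s) := @AnalyticSet.preimage Z Y t' _ hp _ s hs f hc
  have h2 : @Continuous Z Z t' t id := continuous_id_iff_le.2 hle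
  have h3 : @AnalyticSet Z t (id '' (f ⁻¹' s)) :=
    @AnalyticSet.image_of_continuous Z t' Z t _ h1 id h2
  rwa [image_id] at h3

/-- **Topological conjugacy of minimal distal homeomorphisms is hard for analytic sets.** Here `m`
is any compatible metric on the Hilbert cube. -/
theorem result (m : MetricSpace Q)
    (hm : m.toUniformSpace.toTopologicalSpace = Pi.topologicalSpace) :
    -- continuous reductions of the analytic subsets of the Baire space
    (∀ A : Set (ℕ → ℕ), AnalyticSet A → ∃ Φ : (ℕ → ℕ) → X × X, Continuous Φ ∧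
      (∀ x, (Φ x).1.1.Distal m ∧ (Φ x).2.1.Distal m) ∧ ∀ x, x ∈ A ↔ Conj (Φ x).1.1 (Φ x).2.1) ∧
    -- Borel reductions of the analytic subsets of Polish spaces
    (∀ (P : Type) [TopologicalSpace P] [PolishSpace P] [MeasurableSpace P] [BorelSpace P]
      (A : Set P), AnalyticSet A → ∃ Φ : P → X × X,
      @Measurable P (X × X) _ (borel (X × X)) Φ ∧
      (∀ x, (Φ x).1.1.Distal m ∧ (Φ x).2.1.Distal m) ∧ ∀ x, x ∈ A ↔ Conj (Φ x).1.1 (Φ x).2.1) ∧
    -- there is no coanalytic criterion
    (¬ ∃ B : Set (X × X), AnalyticSet Bᶜ ∧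
      ∀ S S' : X, S.1.Distal m → S'.1.Distal m → ((S, S') ∈ B ↔ Conj S.1 S'.1)) ∧
    -- there is no Borel reduction to a coanalytic relation
    (∀ (Y : Type) [TopologicalSpace Y] [PolishSpace Y] [MeasurableSpace Y] [BorelSpace Y]
      (c : X → Y) (E : Set (Y × Y)), @Measurable X Y (borel X) _ c → AnalyticSet Eᶜ →
      ¬ ∀ S S' : X, S.1.Distal m → S'.1.Distal m → ((c S, c S') ∈ E ↔ Conj S.1 S'.1)) ∧
    -- the question: there is no Borel criterion
    (¬ ∃ B : Set (X × X), @MeasurableSet (X × X) (borel (X × X)) B ∧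
      ∀ S S' : X, S.1.Distal m → S'.1.Distal m → ((S, S') ∈ B ↔ Conj S.1 S'.1)) := by
  have hmet : MetrizableSpace Pool.Agent.W922.Dis.X := metrizableSpace_of_t3_secondCountable _
  obtain ⟨ι, hι⟩ : ∃ ι : Pool.Agent.W922.Dis.X → Q, IsEmbedding ι := by
    let _ : MetricSpace Pool.Agent.W922.Dis.X := metrizableSpaceMetric _
    exact Metric.PiNatEmbed.exists_embedding_to_hilbert_cube
  let pt : ℤ → (List ℕ → Bool) → X := fun b τ => ⟨sy hι τ b, sy_min hι τ b⟩
  have hpt : ∀ b, Continuous (pt b) := fun b => Continuous.subtype_mk (sy_cont hι b) _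
  let Φ : (List ℕ → Bool) → X × X := fun τ => (pt 1 τ, pt 0 τ)
  have hΦ : Continuous Φ := (hpt 1).prodMk (hpt 0)
  have hd : ∀ τ, (Φ τ).1.1.Distal m ∧ (Φ τ).2.1.Distal m := fun τ =>
    ⟨sy_dist hι m hm τ 1, sy_dist hι m hm τ 0⟩
  have hC : ∀ τ, τ ∈ IG ↔ Conj (Φ τ).1.1 (Φ τ).2.1 := by
    intro τ
    have h1 : Conj (Φ τ).1.1 (Φ τ).2.1 ↔ _ := sy_conj hι τ
    rw [h1, Pool.Agent.W922.Dis.conj_iff]
    rfl
  have _ : T2Space Sys := t2_sys
  have _ : PolishSpace (List ℕ → Bool) := {}
  refine ⟨?_, ?_, ?_, ?_, ?_⟩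
  · intro A hA
    obtain ⟨τ, hτ, h⟩ := codes_baire A hA
    exact ⟨fun x => Φ (τ x), hΦ.comp hτ, fun x => hd _, fun x => (h x).trans (hC _)⟩
  · intro P _ _ _ _ A hA
    obtain ⟨τ, hτ, h⟩ := codes_polish A hA
    refine ⟨fun x => Φ (τ x), ?_, fun x => hd _, fun x => (h x).trans (hC _)⟩
    let _ : MeasurableSpace (X × X) := borel _
    have _ : BorelSpace (X × X) := ⟨rfl⟩
    exact hΦ.measurable.comp hτ
  · rintro ⟨B, hB, h⟩
    apply IG_not_coanalytic
    have h1 : (IGᶜ : Set (List ℕ → Bool)) = Φ ⁻¹' Bᶜ := by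
      ext τ
      rw [mem_compl_iff, hC, ← h _ _ (hd τ).1 (hd τ).2]
      rfl
    rw [h1]
    exact hB.preimage hΦ
  · intro Y _ _ _ _ c E hc hE h
    apply IG_not_coanalytic
    have h1 : (IGᶜ : Set (List ℕ → Bool)) = (fun τ => (c (Φ τ).1, c (Φ τ).2)) ⁻¹' Eᶜ := by
      ext τ
      rw [mem_compl_iff, hC, ← h _ _ (hd τ).1 (hd τ).2]
      rfl
    rw [h1]
    let _ : MeasurableSpace X := borel _
    have _ : BorelSpace X := ⟨rfl⟩
    have h2 : ∀ b : ℤ, Measurable fun τ : List ℕ → Bool => c (pt b τ) := fun b =>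
      hc.comp (hpt b).measurable
    exact analytic_preimage ((h2 1).prodMk (h2 0)) hE
  · rintro ⟨B, hB, h⟩
    apply IG_not_coanalytic
    have h1 : (IGᶜ : Set (List ℕ → Bool)) = Φ ⁻¹' Bᶜ := by
      ext τ
      rw [mem_compl_iff, hC, ← h _ _ (hd τ).1 (hd τ).2]
      rfl
    have h2 : @MeasurableSet (List ℕ → Bool) (borel (List ℕ → Bool)) (Φ ⁻¹' Bᶜ) := by
      let _ : MeasurableSpace (List ℕ → Bool) := borel _
      have _ : BorelSpace (List ℕ → Bool) := ⟨rfl⟩
      let _ : MeasurableSpace (X × X) := borel _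
      have _ : BorelSpace (X × X) := ⟨rfl⟩
      exact hΦ.measurable hB.compl
    rw [h1]
    let _ : MeasurableSpace (List ℕ → Bool) := borel _
    have _ : BorelSpace (List ℕ → Bool) := ⟨rfl⟩
    exact MeasurableSet.analyticSet h2

end Pool.Agent.Results.MP_3166b2_lc.AnalyticHard
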